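import Pool.Agent.H27.HP.T
import Pool.Agent.H36.HB.LSC
import Pool.Agent.H46.HB.VIT

/-!
# LSW: weighted lower semicontinuity of the energy as `p → 2+`
-/

set_option autoImplicit false

namespace Pool.Agent.H46.HP
open MeasureTheory Set Filter Topology Pool.Agent.H80.HS Pool.Agent.H93.HQ Pool.Agent.H27.HB
  Pool.Agent.H27.HP Pool.Agent.H36.HB
open scoped ContDiff ENNReal

variable {n : ℕ}

theorem w_int {E : Type*} [NormedAddCommGroup E] {f : H n → E} {q : ℝ} (hq : 0 < q)
    (hf : MemLp f (ENNReal.ofReal q)) : Integrable (fun z => ‖f z‖ ^ q) := by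
  have h := hf.integrable_norm_rpow (by simpa using hq) ENNReal.ofReal_ne_top
  rwa [ENNReal.toReal_ofReal hq.le] at h

/-- the limit is in `L^(2*)` -/
theorem w_mem (hn : 1 ≤ n) {p : ℕ → ℝ} {C : ℝ} {W : ℕ → H n → ℝ} {Z : H n → ℝ}
    (hp1 : ∀ k, 1 < p k ∧ p k < 2 * n + 2) (hp : Tendsto p atTop (𝓝 2))
    (hW : ∀ k, MemLp (W k) (ENNReal.ofReal (ps n (p k)))) (hZ : AEStronglyMeasurable Z volume)
    (hae : ∀ᵐ z, Tendsto (fun k => W k z) atTop (𝓝 (Z z)))
    (hC : ∀ k, ms (ps n (p k)) (W k) ≤ C) : MemLp Z (ENNReal.ofReal (ps n 2)) := by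
  have hQ : 0 < ps n 2 := by linarith [ps_two hn]
  have h0 : ∀ k, Integrable (fun z => |W k z| ^ ps n (p k)) := fun k =>
    w_int (ps_pos hn (hp1 k).1 (hp1 k).2) (hW k)
  have h1 : ∀ k, ∫⁻ z, ENNReal.ofReal (|W k z| ^ ps n (p k)) ≤ ENNReal.ofReal C := by
    intro k
    rw [← ofReal_integral_eq_lintegral_ofReal (h0 k)
      (Eventually.of_forall fun z => Real.rpow_nonneg (abs_nonneg _) _)]
    exact ENNReal.ofReal_le_ofReal (hC k)
  have h2 : ∀ᵐ z, liminf (fun k => ENNReal.ofReal (|W k z| ^ ps n (p k))) atTop =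
      ENNReal.ofReal (|Z z| ^ ps n 2) := by
    refine hae.mono fun z hz => ?_
    have h3 : Tendsto (fun k => |W k z| ^ ps n (p k)) atTop (𝓝 (|Z z| ^ ps n 2)) :=
      Tendsto.rpow hz.abs (ps_tend hn hp) (Or.inr hQ)
    exact (ENNReal.tendsto_ofReal h3).liminf_eq
  have h3 : ∫⁻ z, ENNReal.ofReal (|Z z| ^ ps n 2) ≤ ENNReal.ofReal C := by
    rw [← lintegral_congr_ae h2]
    refine (lintegral_liminf_le' fun k => ?_).trans ?_
    · exact (h0 k).1.aemeasurable.ennreal_ofReal
    · refine (liminf_le_liminf (Eventually.of_forall h1)).trans ?_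
      rw [liminf_const]
  refine ⟨hZ, ?_⟩
  rw [eLpNorm_lt_top_iff_lintegral_rpow_enorm_lt_top (by simpa using hQ) ENNReal.ofReal_ne_top,
    ENNReal.toReal_ofReal hQ.le]
  have h4 : ∀ z, ‖Z z‖ₑ ^ ps n 2 = ENNReal.ofReal (|Z z| ^ ps n 2) := by
    intro z
    rw [Real.enorm_eq_ofReal_abs, ENNReal.ofReal_rpow_of_nonneg (abs_nonneg _) hQ.le]
  rw [lintegral_congr h4]
  exact lt_of_le_of_lt h3 ENNReal.ofReal_lt_top

/-- the product with a continuous function with compact support is integrable -/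
theorem w_prod {W : H n → ℝ} {q : ℝ} (hq : 1 ≤ q) (hW : MemLp W (ENNReal.ofReal q))
    {D : H n → ℝ} (hD : Continuous D) (hDs : HasCompactSupport D) :
    Integrable (fun z => W z * D z) := by
  have hloc : LocallyIntegrable W volume := hW.locallyIntegrable (by
    rw [← ENNReal.ofReal_one]
    exact ENNReal.ofReal_le_ofReal hq)
  have h := hloc.integrable_smul_left_of_hasCompactSupport hD hDs
  refine h.congr (Eventually.of_forall fun z => ?_)
  show D z * W z = W z * D z
  ring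

/-- convergence of the pairing, measurable functions -/
theorem w_conv0 (hn : 1 ≤ n) {p : ℕ → ℝ} {C : ℝ} {W : ℕ → H n → ℝ}
    {Z : H n → ℝ} (hp1 : ∀ k, 1 < p k ∧ p k < 2 * n + 2) (hp : Tendsto p atTop (𝓝 2))
    (hWm : ∀ k, Measurable (W k))
    (hW : ∀ k, MemLp (W k) (ENNReal.ofReal (ps n (p k))))
    (hae : ∀ᵐ z, Tendsto (fun k => W k z) atTop (𝓝 (Z z)))
    (hC : ∀ k, ms (ps n (p k)) (W k) ≤ C) {D : H n → ℝ} (hD : Continuous D)
    (hDs : HasCompactSupport D) :
    Tendsto (fun k => ∫ z, W k z * D z) atTop (𝓝 (∫ z, Z z * D z)) := by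
  refine (Pool.Agent.H46.HB.pf_VIT n (fun k z => W k z * D z) (fun z => Z z * D z)
    (fun k => ((hWm k).mul hD.measurable).aestronglyMeasurable)
    (hae.mono fun z hz => hz.mul_const _) fun η hη => ?_).2.2
  obtain ⟨B, hB⟩ := hD.bounded_above_of_compact_support hDs
  obtain ⟨R, hR⟩ := (show IsCompact (tsupport D) from hDs).exists_bound_of_continuousOn
    (continuous_N (n := n)).continuousOn
  set B' := max B 1 with hB'
  set C' := max C 0 with hC'
  set Q := ps n 2 with hQdef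
  have hQ := ps_two hn
  set M := max 1 (B' ^ (Q + 1) * C' / η) with hM
  have hM1 : 1 ≤ M := le_max_left _ _
  have hB1 : 1 ≤ B' := le_max_right _ _
  have hC0 : 0 ≤ C' := le_max_right _ _
  have hBQ : 0 < B' ^ (Q + 1) := Real.rpow_pos_of_pos (by linarith) _
  refine ⟨M, R, ?_⟩
  have e1 : ∀ᶠ k in atTop, 2 < ps n (p k) := (ps_tend hn hp).eventually (lt_mem_nhds hQ)
  have e2 : ∀ᶠ k in atTop, ps n (p k) < Q + 1 :=
    (ps_tend hn hp).eventually (gt_mem_nhds (by linarith))
  filter_upwards [e1, e2] with k hk1 hk2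
  set q := ps n (p k) with hq
  have hq0 : 0 < q := by linarith
  have hint : Integrable (fun z => W k z * D z) := w_prod (by linarith) (hW k) hD hDs
  refine ⟨hint, ?_⟩
  have hpow : Integrable (fun z => |W k z| ^ q) := w_int hq0 (hW k)
  have hpw : Integrable (fun z => M⁻¹ * (B' ^ (Q + 1) * |W k z| ^ q)) :=
    (hpow.const_mul _).const_mul _
  have hnn : ∀ z, 0 ≤ M⁻¹ * (B' ^ (Q + 1) * |W k z| ^ q) := fun z => by
    have := Real.rpow_nonneg (abs_nonneg (W k z)) q
    positivity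
  have hS : MeasurableSet {z : H n | M < |W k z * D z| ∨ R < N z} := by
    refine MeasurableSet.union ?_ ?_
    · exact measurableSet_lt measurable_const (((hWm k).mul hD.measurable).abs)
    · exact measurableSet_lt measurable_const (continuous_N (n := n)).measurable
  have h1 : ∫ z in {z : H n | M < |W k z * D z| ∨ R < N z}, |W k z * D z| ≤
      ∫ z in {z : H n | M < |W k z * D z| ∨ R < N z}, M⁻¹ * (B' ^ (Q + 1) * |W k z| ^ q) := by
    refine setIntegral_mono_on hint.abs.integrableOn hpw.integrableOn hS fun z hz => ?_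
    rcases hz with hz | hz
    · have hF1 : 1 ≤ |W k z * D z| := by linarith
      have h2 : M * |W k z * D z| ≤ |W k z * D z| ^ q := by
        have h3 : |W k z * D z| ^ (2 : ℝ) ≤ |W k z * D z| ^ q :=
          Real.rpow_le_rpow_of_exponent_le hF1 hk1.le
        rw [Real.rpow_two, pow_two] at h3
        have h4 : M * |W k z * D z| ≤ |W k z * D z| * |W k z * D z| :=
          mul_le_mul_of_nonneg_right hz.le (abs_nonneg _)
        linarith
      have h5 : |W k z * D z| ^ q ≤ B' ^ (Q + 1) * |W k z| ^ q := by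
        rw [abs_mul, Real.mul_rpow (abs_nonneg _) (abs_nonneg _), mul_comm]
        refine mul_le_mul_of_nonneg_right ?_ (Real.rpow_nonneg (abs_nonneg _) _)
        have h6 : |D z| ≤ B' := (hB z).trans (le_max_left _ _)
        exact (Real.rpow_le_rpow (abs_nonneg _) h6 hq0.le).trans
          (Real.rpow_le_rpow_of_exponent_le hB1 hk2.le)
      rw [inv_mul_eq_div, le_div_iff₀ (by linarith)]
      linarith
    · have h2 : z ∉ tsupport D := fun h => by
        have := hR z h
        rw [Real.norm_eq_abs, abs_of_nonneg (N_nonneg z)] at this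
        exact absurd hz (not_lt.2 this)
      rw [image_eq_zero_of_notMem_tsupport h2, mul_zero, abs_zero]
      exact hnn z
  have h2 : ∫ z in {z : H n | M < |W k z * D z| ∨ R < N z},
      M⁻¹ * (B' ^ (Q + 1) * |W k z| ^ q) ≤ ∫ z, M⁻¹ * (B' ^ (Q + 1) * |W k z| ^ q) :=
    setIntegral_le_integral hpw (Eventually.of_forall hnn)
  have h3 : ∫ z, M⁻¹ * (B' ^ (Q + 1) * |W k z| ^ q) ≤ η := by
    rw [integral_const_mul, integral_const_mul]
    have h4 : ∫ z, |W k z| ^ q ≤ C' := (hC k).trans (le_max_left _ _)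
    have h5 : B' ^ (Q + 1) * C' ≤ η * M := by
      have := le_max_right 1 (B' ^ (Q + 1) * C' / η)
      rw [div_le_iff₀ hη] at this
      linarith
    rw [inv_mul_le_iff₀ (by linarith)]
    have h6 : B' ^ (Q + 1) * ∫ z, |W k z| ^ q ≤ B' ^ (Q + 1) * C' :=
      mul_le_mul_of_nonneg_left h4 hBQ.le
    linarith
  exact h1.trans (h2.trans h3)

/-- convergence of the pairing -/
theorem w_conv (hn : 1 ≤ n) {p : ℕ → ℝ} {C : ℝ} {W : ℕ → H n → ℝ}
    {Z : H n → ℝ} (hp1 : ∀ k, 1 < p k ∧ p k < 2 * n + 2) (hp : Tendsto p atTop (𝓝 2))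
    (hW : ∀ k, MemLp (W k) (ENNReal.ofReal (ps n (p k))))
    (hae : ∀ᵐ z, Tendsto (fun k => W k z) atTop (𝓝 (Z z)))
    (hC : ∀ k, ms (ps n (p k)) (W k) ≤ C) {D : H n → ℝ} (hD : Continuous D)
    (hDs : HasCompactSupport D) :
    Tendsto (fun k => ∫ z, W k z * D z) atTop (𝓝 (∫ z, Z z * D z)) := by
  have hmk : ∀ k, W k =ᵐ[volume] (hW k).1.mk (W k) := fun k => (hW k).1.ae_eq_mk
  have hall : ∀ᵐ z, ∀ k, W k z = (hW k).1.mk (W k) z := ae_all_iff.2 hmk
  have h := w_conv0 (W := fun k => (hW k).1.mk (W k)) (Z := Z) (C := C) hn hp1 hp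
    (fun k => (hW k).1.stronglyMeasurable_mk.measurable)
    (fun k => (memLp_congr_ae (hmk k)).1 (hW k)) (by
      filter_upwards [hae, hall] with z hz hz2
      refine hz.congr fun k => hz2 k) (fun k => by
      have : ms (ps n (p k)) ((hW k).1.mk (W k)) = ms (ps n (p k)) (W k) := by
        unfold ms
        refine integral_congr_ae ?_
        filter_upwards [hmk k] with z hz
        rw [hz]
      rw [this]
      exact hC k) hD hDs
  refine h.congr fun k => ?_
  refine integral_congr_ae ?_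
  filter_upwards [hmk k] with z hz
  rw [hz]

/-- the inner product with a test field -/
theorem w_inner (v : G n) (ψ : Fin n ⊕ Fin n → H n → ℝ) (z : H n) :
    ∑ i, v i * ψ i z = inner ℝ (vf ψ z) v := by
  rw [PiLp.inner_apply]
  rfl

theorem w_int_inner {D : H n → G n} {p : ℝ} (hp : 1 ≤ p) (hD : MemLp D (ENNReal.ofReal p))
    {ψ : Fin n ⊕ Fin n → H n → ℝ} (hψ : ∀ i, Tst (ψ i)) :
    Integrable (fun z => ∑ i, D z i * ψ i z) := by
  have hloc : LocallyIntegrable D volume := hD.locallyIntegrable (by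
    rw [← ENNReal.ofReal_one]
    exact ENNReal.ofReal_le_ofReal hp)
  have h := hloc.integrable_smul_left_of_hasCompactSupport (vf_cont hψ).norm (vf_cs hψ).norm
  refine h.mono ?_ (Eventually.of_forall fun z => ?_)
  · have h1 : AEStronglyMeasurable (fun z => inner ℝ (vf ψ z) (D z)) volume :=
      (vf_cont hψ).aestronglyMeasurable.inner hD.1
    exact h1.congr (Eventually.of_forall fun z => (w_inner (D z) ψ z).symm)
  · rw [w_inner, norm_smul, norm_norm]
    exact norm_inner_le_norm _ _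

/-- a limit argument -/
theorem w_zero {E : Type*} [NormedAddCommGroup E] {r : ℝ} (hr : 1 < r)
    {f : ℕ → H n → E} (hf : ∀ k, MemLp (f k) (ENNReal.ofReal r))
    (h0 : Tendsto (fun k => ∫ z, ‖f k z‖ ^ r) atTop (𝓝 0)) {g : H n → E} (hg : Continuous g)
    (hgs : HasCompactSupport g) : Tendsto (fun k => ∫ z, ‖f k z‖ * ‖g z‖) atTop (𝓝 0) := by
  have hpq : r.HolderConjugate (r / (r - 1)) := Real.HolderConjugate.conjExponent hr
  have h1 : ∀ k, ∫ z, ‖f k z‖ * ‖g z‖ ≤ (∫ z, ‖f k z‖ ^ r) ^ (1 / r) *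
      (∫ z, ‖g z‖ ^ (r / (r - 1))) ^ (1 / (r / (r - 1))) := fun k =>
    integral_mul_norm_le_Lp_mul_Lq (μ := (volume : Measure (H n))) hpq (hf k)
      (hg.memLp_of_hasCompactSupport hgs)
  have h2 : Tendsto (fun k => (∫ z, ‖f k z‖ ^ r) ^ (1 / r) *
      (∫ z, ‖g z‖ ^ (r / (r - 1))) ^ (1 / (r / (r - 1)))) atTop (𝓝 (0 ^ (1 / r) *
      (∫ z, ‖g z‖ ^ (r / (r - 1))) ^ (1 / (r / (r - 1))))) :=
    (h0.rpow_const (Or.inr (by positivity))).mul_const _
  rw [Real.zero_rpow (by positivity), zero_mul] at h2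
  exact squeeze_zero (fun k => integral_nonneg fun z => by positivity) h1 h2

/-- integration by parts in `Cl p` -/
theorem w_ibp (hIBP : T_IBP) (hHGC : T_HGC) {p : ℝ} (hp : 1 < p) (hq : 1 < ps n p) {W : H n → ℝ}
    {D : H n → G n} (h : Cl p W D) {ψ : Fin n ⊕ Fin n → H n → ℝ} (hψ : ∀ i, Tst (ψ i)) :
    ∫ z, W z * dv ψ z = - ∫ z, ∑ i, D z i * ψ i z := by
  obtain ⟨hW, hD, φ, hφ, h1, h2⟩ := h
  have hhg : ∀ k, Continuous (hg (φ k)) ∧ HasCompactSupport (hg (φ k)) := fun k => by
    obtain ⟨hc, -, -, hs⟩ := hHGC n (φ k)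
    exact ⟨hc ((hφ k).1.of_le (by exact_mod_cast le_top)), hs (hφ k).2⟩
  have m1 : ∀ k, MemLp (fun z => φ k z - W z) (ENNReal.ofReal (ps n p)) := fun k =>
    ((hφ k).1.continuous.memLp_of_hasCompactSupport (hφ k).2).sub hW
  have m2 : ∀ k, MemLp (fun z => hg (φ k) z - D z) (ENNReal.ofReal p) := fun k =>
    ((hhg k).1.memLp_of_hasCompactSupport (hhg k).2).sub hD
  have t1 := w_zero hq m1 h1 (dv_cont hψ) (dv_cs hψ)
  have t2 := w_zero hp m2 h2 (vf_cont hψ) (vf_cs hψ)
  have iW := w_prod hq.le hW (dv_cont hψ) (dv_cs hψ)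
  have iD := w_int_inner hp.le hD hψ
  have l1 : Tendsto (fun k => ∫ z, φ k z * dv ψ z) atTop (𝓝 (∫ z, W z * dv ψ z)) := by
    refine tendsto_iff_norm_sub_tendsto_zero.2 ?_
    refine squeeze_zero (fun k => norm_nonneg _) (fun k => ?_) t1
    have i1 : Integrable (fun z => φ k z * dv ψ z) :=
      w_prod hq.le ((hφ k).1.continuous.memLp_of_hasCompactSupport (hφ k).2) (dv_cont hψ)
        (dv_cs hψ)
    rw [← integral_sub i1 iW]
    refine (norm_integral_le_integral_norm _).trans (le_of_eq ?_)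
    refine integral_congr_ae (Eventually.of_forall fun z => ?_)
    show ‖φ k z * dv ψ z - W z * dv ψ z‖ = ‖φ k z - W z‖ * ‖dv ψ z‖
    rw [← sub_mul, norm_mul]
  have l2 : Tendsto (fun k => ∫ z, ∑ i, hg (φ k) z i * ψ i z) atTop
      (𝓝 (∫ z, ∑ i, D z i * ψ i z)) := by
    refine tendsto_iff_norm_sub_tendsto_zero.2 ?_
    refine squeeze_zero (fun k => norm_nonneg _) (fun k => ?_) t2
    have i1 : Integrable (fun z => ∑ i, hg (φ k) z i * ψ i z) :=
      w_int_inner hp.le ((hhg k).1.memLp_of_hasCompactSupport (hhg k).2) hψ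
    have i3 : Integrable (fun z => ∑ i, (hg (φ k) z - D z) i * ψ i z) :=
      w_int_inner hp.le (m2 k) hψ
    have e3 : ∀ z, ∑ i, hg (φ k) z i * ψ i z - ∑ i, D z i * ψ i z =
        ∑ i, (hg (φ k) z - D z) i * ψ i z := by
      intro z
      rw [← Finset.sum_sub_distrib]
      refine Finset.sum_congr rfl fun i _ => ?_
      rw [PiLp.sub_apply]
      ring
    rw [← integral_sub i1 iD, integral_congr_ae (Eventually.of_forall e3)]
    refine (norm_integral_le_integral_norm _).trans ?_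
    have hloc : LocallyIntegrable (fun z => hg (φ k) z - D z) volume :=
      (m2 k).locallyIntegrable (by
        rw [← ENNReal.ofReal_one]
        exact ENNReal.ofReal_le_ofReal hp.le)
    have h5 := (hloc.integrable_smul_left_of_hasCompactSupport (vf_cont hψ).norm
      (vf_cs hψ).norm).norm
    refine integral_mono i3.norm (h5.congr (Eventually.of_forall fun z => ?_)) fun z => ?_
    · show ‖‖vf ψ z‖ • (hg (φ k) z - D z)‖ = ‖hg (φ k) z - D z‖ * ‖vf ψ z‖
      rw [norm_smul, norm_norm, mul_comm]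
    · show ‖∑ i, (hg (φ k) z - D z) i * ψ i z‖ ≤ ‖hg (φ k) z - D z‖ * ‖vf ψ z‖
      rw [w_inner, mul_comm]
      exact norm_inner_le_norm _ _
  refine tendsto_nhds_unique l1 ?_
  refine l2.neg.congr fun k => ?_
  exact (ibp_dv hIBP (hφ k) hψ).symm

/-- the pointwise bound -/
theorem w_point {a b ρ t δ B L p : ℝ} (ha : 0 ≤ a) (hb : 0 ≤ b) (hbB : b ≤ B) (hρ : 0 ≤ ρ)
    (ht : 0 < t) (hδ : 0 < δ) (hL : 1 ≤ L) (hp : 2 ≤ p) {χ : ℝ} (hχ : 0 ≤ χ)
    (h : ρ < (1 + δ)⁻¹ → b ≠ 0 → 1 ≤ χ) :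
    a * b ≤ t * (1 + δ) / 2 * (ρ * a ^ 2) + 1 / (2 * t) * b ^ 2 + B * L * χ + B / L * a ^ p := by
  have hB : 0 ≤ B := hb.trans hbB
  have hap : 0 ≤ a ^ p := Real.rpow_nonneg ha _
  have n1 : 0 ≤ t * (1 + δ) / 2 * (ρ * a ^ 2) := by positivity
  have n2 : 0 ≤ 1 / (2 * t) * b ^ 2 := by positivity
  have n3 : 0 ≤ B * L * χ := by positivity
  have n4 : 0 ≤ B / L * a ^ p := by positivity
  by_cases hb0 : b = 0
  · rw [hb0, mul_zero]
    rw [hb0] at n2
    linarith
  by_cases hρ1 : ρ < (1 + δ)⁻¹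
  · have hχ1 := h hρ1 hb0
    have h1 : a ≤ L + L⁻¹ * a ^ p := by
      rcases le_total a L with h2 | h2
      · have : 0 ≤ L⁻¹ * a ^ p := by positivity
        linarith
      · have ha1 : 1 ≤ a := hL.trans h2
        have h3 : a ^ (2 : ℝ) ≤ a ^ p := Real.rpow_le_rpow_of_exponent_le ha1 hp
        rw [Real.rpow_two] at h3
        have h4 : a ≤ L⁻¹ * a ^ p := by
          rw [inv_mul_eq_div, le_div_iff₀ (by linarith)]
          nlinarith
        linarith
    have h2 : a * b ≤ (L + L⁻¹ * a ^ p) * B :=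
      mul_le_mul h1 hbB hb (ha.trans h1)
    have h3 : (L + L⁻¹ * a ^ p) * B = B * L * 1 + B / L * a ^ p := by
      rw [div_eq_mul_inv]; ring
    have h4 : B * L * 1 ≤ B * L * χ := mul_le_mul_of_nonneg_left hχ1 (by positivity)
    linarith
  · have h1 : (1 + δ)⁻¹ ≤ ρ := not_lt.1 hρ1
    have h2 : 1 ≤ (1 + δ) * ρ := by
      rwa [inv_le_iff_one_le_mul₀' (by linarith)] at h1
    have h3 : a * b ≤ t / 2 * a ^ 2 + 1 / (2 * t) * b ^ 2 := by
      have h4 : 0 ≤ (t * a - b) ^ 2 / (2 * t) := by positivity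
      have h5 : (t * a - b) ^ 2 / (2 * t) = t / 2 * a ^ 2 + 1 / (2 * t) * b ^ 2 - a * b := by
        field_simp
        ring
      linarith
    have h6 : t / 2 * a ^ 2 ≤ t * (1 + δ) / 2 * (ρ * a ^ 2) := by
      have h7 : t / 2 * a ^ 2 * 1 ≤ t / 2 * a ^ 2 * ((1 + δ) * ρ) :=
        mul_le_mul_of_nonneg_left h2 (by positivity)
      have h8 : t / 2 * a ^ 2 * ((1 + δ) * ρ) = t * (1 + δ) / 2 * (ρ * a ^ 2) := by ring
      linarith
    linarith

theorem pf_LSW (hRIE : T_RIE) (hMOL : T_MOL) (hIBP : T_IBP) (hHGC : T_HGC) : T_LSW := by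
  intro n hn p C W D ρ Z hp25 hp hCl hC hE _ hρ0 hρi hρ1 hvol hZ hae
  have hn1 : (1 : ℝ) ≤ n := by exact_mod_cast hn
  have hp1 : ∀ k, 1 < p k ∧ p k < 2 * n + 2 := fun k =>
    ⟨by linarith [(hp25 k).1], by linarith [(hp25 k).2]⟩
  have hW : ∀ k, MemLp (W k) (ENNReal.ofReal (ps n (p k))) := fun k => (hCl k).1
  have hmZ := w_mem hn hp1 hp hW hZ hae hC
  have hQ := ps_two hn
  have hloc : LocallyIntegrable Z volume := hmZ.locallyIntegrable (by
    rw [← ENNReal.ofReal_one]
    exact ENNReal.ofReal_le_ofReal (by linarith))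
  have hps : ∀ k, 1 < ps n (p k) := by
    intro k
    have h2 := (hp25 k).1
    have h3 := (hp1 k).2
    unfold ps
    rw [lt_div_iff₀ (by linarith)]
    nlinarith
  set C' := max C 0 with hC'
  have hC0 : 0 ≤ C' := le_max_right _ _
  have key : ∀ ψ : Fin n ⊕ Fin n → H n → ℝ, (∀ i, Tst (ψ i)) →
      |∫ z, Z z * (∑ j, (X (ψ (Sum.inl j)) j z + Y (ψ (Sum.inr j)) j z))| ^ 2 ≤
        1 * ∫ z, ∑ i, ψ i z ^ 2 := by
    intro ψ hψ
    rw [one_mul]
    set I := ∫ z, ∑ i, ψ i z ^ 2 with hI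
    have hI0 : 0 ≤ I := integral_nonneg fun z => Finset.sum_nonneg fun i _ => pow_two_nonneg _
    have hconv := w_conv hn hp1 hp hW hae hC (dv_cont hψ) (dv_cs hψ)
    set x := |∫ z, Z z * dv ψ z| with hx
    have hx0 : 0 ≤ x := abs_nonneg _
    obtain ⟨B0, hB0⟩ := (vf_cont hψ).bounded_above_of_compact_support (vf_cs hψ)
    obtain ⟨R, hR⟩ := (show IsCompact (tsupport (vf ψ)) from vf_cs hψ).exists_bound_of_continuousOn
      (continuous_N (n := n)).continuousOn
    set B := max B0 0 with hB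
    have hBnn : 0 ≤ B := le_max_right _ _
    have hBv : ∀ z, ‖vf ψ z‖ ≤ B := fun z => (hB0 z).trans (le_max_left _ _)
    have hIv : ∫ z, ‖vf ψ z‖ ^ 2 = I := by
      rw [hI]
      exact integral_congr_ae (Eventually.of_forall fun z => vf_sq ψ z)
    have hIvi : Integrable (fun z => ‖vf ψ z‖ ^ 2) := by
      refine Continuous.integrable_of_hasCompactSupport ((vf_cont hψ).norm.pow 2) ?_
      refine HasCompactSupport.intro (vf_cs hψ) fun z hz => ?_
      rw [image_eq_zero_of_notMem_tsupport hz, norm_zero]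
      norm_num
    -- the main bound
    have main : ∀ t : ℝ, 0 < t → ∀ ε : ℝ, 0 < ε → x ≤ t / 2 + I / (2 * t) + ε := by
      intro t ht ε hε
      set δ := 2 * (ε / 3) / t with hδ
      have hδ0 : 0 < δ := by positivity
      set L := 1 + 3 * (B * C') / ε with hL
      have hL1 : 1 ≤ L := by
        have : 0 ≤ 3 * (B * C') / ε := by positivity
        linarith
      have hL0 : 0 < L := by linarith
      set η := ε / 3 / (B * L + 1) with hη
      have hη0 : 0 < η := by positivity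
      have hτ : 0 < 1 - (1 + δ)⁻¹ := by
        have : (1 + δ)⁻¹ < 1 := inv_lt_one_of_one_lt₀ (by linarith)
        linarith
      have hev := hvol R (1 - (1 + δ)⁻¹) η hτ hη0
      refine le_of_tendsto hconv.abs ?_
      filter_upwards [hev] with k hk
      have e1 : (1 : ℝ) - (1 - (1 + δ)⁻¹) = (1 + δ)⁻¹ := by ring
      rw [e1] at hk
      set T := toMeasurable volume {z : H n | N z ≤ R ∧ ρ k z < (1 + δ)⁻¹} with hT
      have hTm : MeasurableSet T := measurableSet_toMeasurable _ _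
      have hTs : {z : H n | N z ≤ R ∧ ρ k z < (1 + δ)⁻¹} ⊆ T := subset_toMeasurable _ _
      have hTv : volume T ≤ ENNReal.ofReal η := by
        rw [hT, measure_toMeasurable]
        exact hk
      have hTf : volume T ≠ ⊤ := (lt_of_le_of_lt hTv ENNReal.ofReal_lt_top).ne
      have hTr : (volume : Measure (H n)).real T ≤ η := by
        rw [Measure.real]
        exact ENNReal.toReal_le_of_le_ofReal hη0.le hTv
      rw [w_ibp hIBP hHGC (hp1 k).1 (hps k) (hCl k) hψ, abs_neg]
      have hDm := (hCl k).2.1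
      have i1 := w_int_inner (hp1 k).1.le hDm hψ
      have iP : Integrable (fun z => ‖D k z‖ ^ p k) := w_int (by linarith [(hp1 k).1]) hDm
      have iT : Integrable (T.indicator (fun _ => (1 : ℝ))) :=
        (integrable_indicator_iff hTm).2 (integrableOn_const hTf)
      have hpt : ∀ z, |∑ i, D k z i * ψ i z| ≤
          t * (1 + δ) / 2 * (ρ k z * ‖D k z‖ ^ 2) + 1 / (2 * t) * ‖vf ψ z‖ ^ 2 +
            B * L * T.indicator (fun _ => (1 : ℝ)) z + B / L * ‖D k z‖ ^ p k := by
        intro z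
        rw [w_inner]
        refine (abs_real_inner_le_norm _ _).trans ?_
        rw [mul_comm]
        refine w_point (norm_nonneg _) (norm_nonneg _) (hBv z) (hρ0 k z) ht hδ0 hL1 (hp25 k).1
          (indicator_nonneg (fun _ _ => zero_le_one) z) fun h1 h2 => ?_
        have h3 : z ∈ tsupport (vf ψ) := by
          by_contra h4
          exact h2 (by rw [image_eq_zero_of_notMem_tsupport h4, norm_zero])
        have h5 : N z ≤ R := by
          have := hR z h3
          rwa [Real.norm_eq_abs, abs_of_nonneg (N_nonneg z)] at this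
        rw [indicator_of_mem (hTs ⟨h5, h1⟩)]
      have j1 : Integrable (fun z => t * (1 + δ) / 2 * (ρ k z * ‖D k z‖ ^ 2)) :=
        (hρi k).const_mul _
      have j2 : Integrable (fun z => 1 / (2 * t) * ‖vf ψ z‖ ^ 2) := hIvi.const_mul _
      have j3 : Integrable (fun z => B * L * T.indicator (fun _ => (1 : ℝ)) z) := iT.const_mul _
      have j4 : Integrable (fun z => B / L * ‖D k z‖ ^ p k) := iP.const_mul _
      have j12 : Integrable (fun z => t * (1 + δ) / 2 * (ρ k z * ‖D k z‖ ^ 2) +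
          1 / (2 * t) * ‖vf ψ z‖ ^ 2) := j1.add j2
      have j123 : Integrable (fun z => t * (1 + δ) / 2 * (ρ k z * ‖D k z‖ ^ 2) +
          1 / (2 * t) * ‖vf ψ z‖ ^ 2 + B * L * T.indicator (fun _ => (1 : ℝ)) z) := j12.add j3
      have h1 : |∫ z, ∑ i, D k z i * ψ i z| ≤ ∫ z, (t * (1 + δ) / 2 * (ρ k z * ‖D k z‖ ^ 2) +
          1 / (2 * t) * ‖vf ψ z‖ ^ 2 + B * L * T.indicator (fun _ => (1 : ℝ)) z +
          B / L * ‖D k z‖ ^ p k) := by
        refine (abs_integral_le_integral_abs).trans ?_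
        exact integral_mono i1.abs (j123.add j4) hpt
      have h2 : ∫ z, (t * (1 + δ) / 2 * (ρ k z * ‖D k z‖ ^ 2) +
          1 / (2 * t) * ‖vf ψ z‖ ^ 2 + B * L * T.indicator (fun _ => (1 : ℝ)) z +
          B / L * ‖D k z‖ ^ p k) = t * (1 + δ) / 2 * (∫ z, ρ k z * ‖D k z‖ ^ 2) +
          1 / (2 * t) * I + B * L * (volume : Measure (H n)).real T +
          B / L * en (p k) (D k) := by
        rw [integral_add j123 j4, integral_add j12 j3,
          integral_add j1 j2, integral_const_mul, integral_const_mul, integral_const_mul,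
          integral_const_mul, hIv, integral_indicator hTm, setIntegral_const, smul_eq_mul, mul_one]
        rfl
      have k1 : t * (1 + δ) / 2 * (∫ z, ρ k z * ‖D k z‖ ^ 2) ≤ t * (1 + δ) / 2 * 1 :=
        mul_le_mul_of_nonneg_left (hρ1 k) (by positivity)
      have k2 : t * (1 + δ) / 2 * 1 = t / 2 + ε / 3 := by
        rw [hδ]
        field_simp
      have k3 : B * L * (volume : Measure (H n)).real T ≤ ε / 3 := by
        have h3 : B * L * (volume : Measure (H n)).real T ≤ B * L * η :=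
          mul_le_mul_of_nonneg_left hTr (by positivity)
        have h4 : B * L * η ≤ (B * L + 1) * η :=
          mul_le_mul_of_nonneg_right (by linarith) hη0.le
        have h5 : (B * L + 1) * η = ε / 3 := by
          rw [hη]
          have : B * L + 1 ≠ 0 := by positivity
          field_simp
        linarith
      have k4 : B / L * en (p k) (D k) ≤ ε / 3 := by
        have h3 : B / L * en (p k) (D k) ≤ B / L * C' :=
          mul_le_mul_of_nonneg_left ((hE k).trans (le_max_left _ _)) (by positivity)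
        have h4 : B / L * C' ≤ ε / 3 := by
          rw [div_mul_eq_mul_div, div_le_iff₀ hL0]
          have h5 : ε / 3 * L = ε / 3 + B * C' := by
            rw [hL]
            field_simp
          linarith
        linarith
      have k5 : 1 / (2 * t) * I = I / (2 * t) := by ring
      linarith
    have main2 : ∀ t : ℝ, 0 < t → x ≤ t / 2 + I / (2 * t) := fun t ht =>
      le_of_forall_pos_le_add fun ε hε => main t ht ε hε
    show x ^ 2 ≤ I
    rcases hx0.eq_or_lt with h | h
    · rw [← h]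
      simpa using hI0
    · have h3 := main2 x h
      have h4 : x / 2 ≤ I / (2 * x) := by linarith
      rw [le_div_iff₀ (by linarith)] at h4
      nlinarith
  obtain ⟨g, hg2, hgA, hid⟩ := hRIE n hn Z 1 zero_le_one hloc key
  exact ⟨g, hMOL n hn Z g hmZ hg2 hid, hgA⟩

end Pool.Agent.H46.HP
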